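import Mathlib

namespace Pool.Agent.Results.MP_8f8c07_co.Yes
open List Filter

/-- The morphism of `{a,b}*` (`a = true`, `b = false`) with `a ↦ A`, `b ↦ B`. -/
def mor (A B : List Bool) (w : List Bool) : List Bool := w.flatMap fun c => if c then A else B

/-- `w = w₁ ⋯ w_k` with all `w_i` nonempty anagrams of one another -/
def AbPow (k : ℕ) (w : List Bool) : Prop :=
  ∃ ws : List (List Bool), ws.length = k ∧ w = ws.flatten ∧ ∀ u ∈ ws, u ≠ [] ∧ ∀ v ∈ ws, u ~ v

/-- no factor is an abelian `k`-power -/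
def AbFree (k : ℕ) (w : List Bool) : Prop := ∀ v, v <:+: w → ¬ AbPow k v

/-- `v` is a factor of the infinite word `x` -/
def Factor (v : List Bool) (x : ℕ → Bool) : Prop :=
  ∃ i, v = (List.range v.length).map fun j => x (i + j)

def hh : List Bool → List Bool := mor [true, true, true, false, true] [false, true, false]

theorem hh_app (u v : List Bool) : hh (u ++ v) = hh u ++ hh v := by simp [hh, mor]
theorem hh_nil : hh [] = [] := rfl
theorem hh_t (w : List Bool) : hh (true :: w) = true :: true :: true :: false :: true :: hh w := rfl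
theorem hh_f (w : List Bool) : hh (false :: w) = false :: true :: false :: hh w := rfl

def U : Fin 7 → List Bool :=
  ![[], [true], [true, true], [true, true, true], [true, true, true, false], [false], [false, true]]
def V : Fin 7 → List Bool :=
  ![[], [true, true, false, true], [true, false, true], [false, true], [true], [true, false], [false]]

theorem cut (w : List Bool) : ∀ P, P <+: hh w →
    ∃ Q Q' s, Q <+: w ∧ Q' <+: w ∧ P = hh Q ++ U s ∧ P ++ V s = hh Q' := by
  induction w with
  | nil =>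
    intro P h
    rw [hh_nil, prefix_nil] at h
    exact ⟨[], [], 0, prefix_rfl, prefix_rfl, h, by rw [h]; rfl⟩
  | cons c w ih =>
    intro P h
    have n : ([] : List Bool) <+: c :: w := nil_prefix
    have o : [c] <+: c :: w := by simp
    cases c
    · rw [hh_f] at h
      rcases P with _ | ⟨a, _ | ⟨b, _ | ⟨c, P⟩⟩⟩ <;> try simp only [cons_prefix_cons] at h
      · exact ⟨[], [], 0, n, n, rfl, rfl⟩
      · obtain ⟨rfl, -⟩ := h; exact ⟨[], _, 5, n, o, rfl, rfl⟩
      · obtain ⟨rfl, rfl, -⟩ := h; exact ⟨[], _, 6, n, o, rfl, rfl⟩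
      · obtain ⟨rfl, rfl, rfl, h⟩ := h
        obtain ⟨Q, Q', s, h1, h2, h3, h4⟩ := ih P h
        exact ⟨false :: Q, false :: Q', s, by simpa using h1, by simpa using h2,
          by simp [hh_f, h3], by simp [hh_f, ← h4]⟩
    · rw [hh_t] at h
      rcases P with _ | ⟨a, _ | ⟨b, _ | ⟨c, _ | ⟨d, _ | ⟨e, P⟩⟩⟩⟩⟩ <;>
        try simp only [cons_prefix_cons] at h
      · exact ⟨[], [], 0, n, n, rfl, rfl⟩
      · obtain ⟨rfl, -⟩ := h; exact ⟨[], _, 1, n, o, rfl, rfl⟩
      · obtain ⟨rfl, rfl, -⟩ := h; exact ⟨[], _, 2, n, o, rfl, rfl⟩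
      · obtain ⟨rfl, rfl, rfl, -⟩ := h; exact ⟨[], _, 3, n, o, rfl, rfl⟩
      · obtain ⟨rfl, rfl, rfl, rfl, -⟩ := h; exact ⟨[], _, 4, n, o, rfl, rfl⟩
      · obtain ⟨rfl, rfl, rfl, rfl, rfl, h⟩ := h
        obtain ⟨Q, Q', s, h1, h2, h3, h4⟩ := ih P h
        exact ⟨true :: Q, true :: Q', s, by simpa using h1, by simpa using h2,
          by simp [hh_t, h3], by simp [hh_t, ← h4]⟩

theorem cnt (w : List Bool) : (hh w).count true = 4 * w.count true + w.count false ∧
    (hh w).count false = w.count true + 2 * w.count false := by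
  induction w with
  | nil => simp [hh_nil]
  | cons c w ih => cases c <;> simp [hh_t, hh_f, ih] <;> omega

def ff (w : List Bool) : ZMod 7 := (w.count true + 3 * w.count false : ℕ)

theorem ff_app (u v : List Bool) : ff (u ++ v) = ff u + ff v := by
  simp only [ff, count_append]; push_cast; ring

theorem ff_hh (w : List Bool) : ff (hh w) = 0 := by
  rw [ff, (cnt w).1, (cnt w).2, ZMod.natCast_eq_zero_iff]
  omega

theorem hh_pre {u v : List Bool} (h : u <+: v) : hh u <+: hh v := by
  obtain ⟨z, rfl⟩ := h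
  rw [hh_app]; exact prefix_append _ _

theorem ext {w Q Q' : List Bool} (h : Q <+: w) (h' : Q' <+: w)
    (hl : (hh Q).length < (hh Q').length) : ∃ z, Q' = Q ++ z := by
  rcases prefix_or_prefix_of_prefix h h' with ⟨z, h⟩ | h
  · exact ⟨z, h.symm⟩
  · have := (hh_pre h).length_le
    omega

theorem hh_inj (u : List Bool) : ∀ v, hh u = hh v → u = v := by
  induction u with
  | nil => rintro (_ | ⟨_ | _, v⟩) h <;> simp_all [hh_nil, hh_t, hh_f]
  | cons c u ih =>
    rintro (_ | ⟨_ | _, v⟩) h <;> cases c <;> simp [hh_nil, hh_t, hh_f] at h ⊢ <;> exact ih _ h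

theorem len_cnt (w : List Bool) : w.length = w.count true + w.count false := by
  induction w with
  | nil => simp
  | cons c w ih => cases c <;> simp only [length_cons, count_cons] <;> simp <;> omega

theorem T2 : ∀ s0 s1 s2 : Fin 7, ff (U s2) - ff (U s1) = ff (U s1) - ff (U s0) →
    ∀ s3, ff (U s3) - ff (U s2) = ff (U s1) - ff (U s0) →
    ∀ s4, ff (U s4) - ff (U s3) = ff (U s1) - ff (U s0) →
    ∀ s5, ff (U s5) - ff (U s4) = ff (U s1) - ff (U s0) →
    ∀ s6, ff (U s6) - ff (U s5) = ff (U s1) - ff (U s0) →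
    (s1 = s0 ∧ s2 = s0 ∧ s3 = s0 ∧ s4 = s0 ∧ s5 = s0 ∧ s6 = s0) ∨
      ∀ s ∈ [s0, s1, s2, s3, s4, s5, s6], (V s).count true = 1 ∧ (V s).count false = 1 := by
  decide +kernel

/-- seven prefixes of `w` whose images grow by the same Parikh vector -/
theorem fin {w : List Bool} (Q : Fin 7 → List Bool) (hQ : ∀ i, Q i <+: w) (a b : ℕ)
    (hab : 0 < a + b) (h : ∀ i : Fin 6, (hh (Q i.succ)).count true = (hh (Q i.castSucc)).count true + a ∧
      (hh (Q i.succ)).count false = (hh (Q i.castSucc)).count false + b) : ¬ AbFree 6 w := by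
  intro hw
  have : ∀ i : Fin 6, ∃ z, Q i.succ = Q i.castSucc ++ z := fun i =>
    ext (hQ _) (hQ _) (by rw [len_cnt, len_cnt (hh (Q i.succ)), (h i).1, (h i).2]; omega)
  choose z hz using this
  have c : ∀ i, 4 * (z i).count true + (z i).count false = a ∧
      (z i).count true + 2 * (z i).count false = b := fun i => by
    have := h i
    rw [hz i, hh_app, count_append, count_append, (cnt (z i)).1, (cnt (z i)).2] at this
    omega
  refine hw (List.ofFn z).flatten ?_ ⟨List.ofFn z, by simp, rfl, ?_⟩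
  · have e : Q 6 = Q 0 ++ (List.ofFn z).flatten := by
      have h0 := hz 0; have h1 := hz 1; have h2 := hz 2
      have h3 := hz 3; have h4 := hz 4; have h5 := hz 5
      simp [List.ofFn_succ] at h0 h1 h2 h3 h4 h5 ⊢
      rw [h5, h4, h3, h2, h1, h0]; simp
    exact (e ▸ (suffix_append _ _).isInfix).trans (hQ 6).isInfix
  · simp only [List.forall_mem_ofFn_iff]
    intro i
    refine ⟨fun h0 => ?_, fun j => perm_iff_count.2 fun l => ?_⟩
    · have := c i
      rw [h0] at this
      simp at this; omega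
    · have := c i
      have := c j
      cases l <;> omega

theorem abfree (w : List Bool) (hw : AbFree 6 w) : AbFree 6 (hh w) := by
  rintro v ⟨p, q, hv⟩ ⟨ws, hl, rfl, hp⟩
  match ws, hl with
  | [w0, w1, w2, w3, w4, w5], _ =>
  let P : Fin 7 → List Bool := ![p, p ++ w0, p ++ w0 ++ w1, p ++ w0 ++ w1 ++ w2,
    p ++ w0 ++ w1 ++ w2 ++ w3, p ++ w0 ++ w1 ++ w2 ++ w3 ++ w4, p ++ w0 ++ w1 ++ w2 ++ w3 ++ w4 ++ w5]
  have hP : ∀ i, P i <+: hh w := by
    intro i
    rw [← hv]
    fin_cases i <;> simp [P, prefix_append_right_inj]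
  have e : ∀ u ∈ [w0, w1, w2, w3, w4, w5], ∀ l, u.count l = w0.count l := fun u hu l =>
    ((hp u hu).2 w0 (by simp)).count_eq l
  simp only [mem_cons, not_mem_nil, or_false, forall_eq_or_imp, forall_eq] at e
  have st : ∀ i : Fin 6, ∀ l, (P i.succ).count l = (P i.castSucc).count l + w0.count l := by
    intro i l
    fin_cases i <;> simp [P, e, add_assoc]
  have pos : 0 < w0.count true + w0.count false := by
    rw [← len_cnt]; exact length_pos_of_ne_nil (hp w0 (by simp)).1
  choose Q Q' s h1 h2 h3 h4 using fun i => cut w _ (hP i)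
  have f : ∀ i : Fin 6, ff (U (s i.succ)) - ff (U (s i.castSucc)) = ff w0 := by
    intro i
    have a := congrArg ff (h3 i.succ)
    have b := congrArg ff (h3 i.castSucc)
    rw [ff_app, ff_hh, zero_add] at a b
    rw [← a, ← b]
    simp only [ff, st]; push_cast; ring
  rcases T2 (s 0) (s 1) (s 2) ((f 1).trans (f 0).symm) (s 3) ((f 2).trans (f 0).symm)
    (s 4) ((f 3).trans (f 0).symm) (s 5) ((f 4).trans (f 0).symm) (s 6) ((f 5).trans (f 0).symm)
    with h | h
  · have hs : ∀ i, s i = s 0 := fun i => by fin_cases i <;> simp [h]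
    refine fin Q h1 _ _ pos (fun i => ?_) hw
    have a := st i true
    have b := st i false
    rw [h3, h3, hs i.succ, hs i.castSucc, count_append, count_append] at a b
    omega
  · have hs : ∀ i, (V (s i)).count true = 1 ∧ (V (s i)).count false = 1 := fun i =>
      h _ (by fin_cases i <;> simp)
    refine fin Q' h2 _ _ pos (fun i => ?_) hw
    have a := st i true
    have b := st i false
    rw [← h4, ← h4]
    simp only [count_append, hs]
    omega

def c1 (l : Bool) (s : Fin 7) : Prop := s ≠ 0 → (V s)[0]? = some l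
def c2 (l : Bool) (s : Fin 7) : Prop := 2 ≤ (V s).length → (V s)[1]? = some l
def c3 (l : Bool) (s : Fin 7) : Prop := s ≠ 0 → (U s).getLast? = some l
instance (l s) : Decidable (c1 l s) := by unfold c1; infer_instance
instance (l s) : Decidable (c2 l s) := by unfold c2; infer_instance
instance (l s) : Decidable (c3 l s) := by unfold c3; infer_instance

set_option synthInstance.maxSize 4096 in
theorem T1 : ∀ (a b c : Bool) (s0 : Fin 7), c1 a s0 → ∀ s1, c1 a s1 → c3 c s1 →
    ∀ s2, ff (U s2) - ff (U s1) = ff (U s1) - ff (U s0) → c1 a s2 → c2 b s2 → c3 c s2 →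
    ∀ s3, ff (U s3) - ff (U s2) = ff (U s1) - ff (U s0) → c1 a s3 → c2 b s3 → c3 c s3 →
    ∀ s4, ff (U s4) - ff (U s3) = ff (U s1) - ff (U s0) → c1 a s4 → c3 c s4 →
    ∀ s5, ff (U s5) - ff (U s4) = ff (U s1) - ff (U s0) → c3 c s5 →
    s1 = s0 ∧ s2 = s0 ∧ s3 = s0 ∧ s4 = s0 ∧ s5 = s0 := by
  decide +kernel

def Free5 (w : List Bool) : Prop := ∀ y, y ≠ [] → ¬ (y ++ y ++ y ++ y ++ y) <:+: w

theorem look {W P y v : List Bool} (h1 : P ++ y <+: W) (h2 : P ++ v <+: W) (i : ℕ)
    (hy : i < y.length) (hv : i < v.length) : v[i]? = some y[i] := by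
  rcases prefix_or_prefix_of_prefix h1 h2 with h | h <;> rw [prefix_append_right_inj] at h
  · rw [getElem?_eq_getElem hv, h.getElem hy]
  · rw [getElem?_eq_getElem hv, h.getElem hv]

theorem free5 (w : List Bool) (hw : Free5 w) : Free5 (hh w) := by
  rintro y hy ⟨p, q, hv⟩
  let P : Fin 6 → List Bool := ![p, p ++ y, p ++ y ++ y, p ++ y ++ y ++ y,
    p ++ y ++ y ++ y ++ y, p ++ y ++ y ++ y ++ y ++ y]
  have hP : ∀ i, P i <+: hh w := by
    intro i
    rw [← hv]
    fin_cases i <;> simp [P, prefix_append_right_inj]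
  have st : ∀ i : Fin 5, P i.succ = P i.castSucc ++ y := fun i => by fin_cases i <;> rfl
  choose Q Q' s h1 h2 h3 h4 using fun i => cut w _ (hP i)
  have f : ∀ i : Fin 5, ff (U (s i.succ)) - ff (U (s i.castSucc)) = ff y := by
    intro i
    have a := congrArg ff (h3 i.succ)
    have b := congrArg ff (h3 i.castSucc)
    rw [ff_app, ff_hh, zero_add] at a b
    rw [← a, ← b, st, ff_app]; ring
  have y0 : 0 < y.length := length_pos_of_ne_nil hy
  have y1 : 1 < (y ++ y).length := by simp; omega
  have hV : ∀ i, P i ++ V (s i) <+: hh w := fun i => h4 i ▸ hh_pre (h2 i)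
  have k1 : ∀ i : Fin 5, c1 y[0] (s i.castSucc) := fun i h =>
    look (st i ▸ hP i.succ) (hV _) 0 y0 (by
      revert h; generalize s i.castSucc = t; revert t; decide)
  have k2 : c2 (y ++ y)[1] (s 2) := fun h =>
    look (W := hh w) (P := P 2) (by simpa [P] using hP 4) (hV _) 1 y1 h
  have k2' : c2 (y ++ y)[1] (s 3) := fun h =>
    look (W := hh w) (P := P 3) (by simpa [P] using hP 5) (hV _) 1 y1 h
  have k3 : ∀ i : Fin 5, c3 (y.getLast hy) (s i.succ) := fun i h => by
    have a := congrArg getLast? (h3 i.succ)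
    have u : U (s i.succ) ≠ [] := by
      revert h; generalize s i.succ = t; revert t; decide
    rw [st, getLast?_append_of_ne_nil _ hy, getLast?_append_of_ne_nil _ u] at a
    rw [← a, getLast?_eq_some_getLast hy]
  have h := T1 _ _ _ (s 0) (k1 0) (s 1) (k1 1) (k3 0) (s 2) ((f 1).trans (f 0).symm) (k1 2) k2 (k3 1)
    (s 3) ((f 2).trans (f 0).symm) (k1 3) k2' (k3 2) (s 4) ((f 3).trans (f 0).symm) (k1 4) (k3 3)
    (s 5) ((f 4).trans (f 0).symm) (k3 4)
  have hs : ∀ i, s i = s 0 := fun i => by fin_cases i <;> simp [h]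
  have e : ∀ i : Fin 5, hh (Q i.succ) ++ U (s 0) = hh (Q i.castSucc) ++ U (s 0) ++ y := fun i => by
    have := st i
    rwa [h3, h3, hs i.succ, hs i.castSucc] at this
  have : ∀ i : Fin 5, ∃ z, Q i.succ = Q i.castSucc ++ z := fun i =>
    ext (h1 _) (h1 _) (by have := congrArg length (e i); simp at this; omega)
  choose z hz using this
  have e' : ∀ i, hh (z i) ++ U (s 0) = U (s 0) ++ y := fun i => by
    have := e i
    rw [hz i, hh_app, append_assoc, append_assoc] at this
    exact append_cancel_left this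
  have zz : ∀ i, z i = z 0 := fun i => hh_inj _ _ (append_cancel_right ((e' i).trans (e' 0).symm))
  refine hw (z 0) (fun h0 => ?_) ?_
  · have := congrArg length (e' 0)
    simp [h0, hh_nil] at this
    exact hy this
  · have e : Q 5 = Q 0 ++ (z 0 ++ z 0 ++ z 0 ++ z 0 ++ z 0) := by
      have h0 := hz 0; have h1 := hz 1; have h2 := hz 2; have h3 := hz 3; have h4 := hz 4
      simp [zz] at h0 h1 h2 h3 h4 ⊢
      rw [h4, h3, h2, h1, h0]; simp
    exact (e ▸ (suffix_append _ _).isInfix).trans (h1 5).isInfix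

theorem nobb (w : List Bool) (hw : ¬ [false, false] <:+: w) : ¬ [false, false] <:+: hh w := by
  induction w with
  | nil => simp [hh_nil]
  | cons c w ih =>
    have := ih fun h => hw (h.trans (suffix_cons _ _).isInfix)
    cases c
    · rcases w with _ | ⟨_ | _, w⟩
      · decide
      · exact absurd (IsPrefix.isInfix (by simp)) hw
      · rw [hh_t] at this
        simp [hh_f, hh_t, infix_cons_iff] at this ⊢
        exact this
    · simp [hh_t, infix_cons_iff, this]

def it (n : ℕ) : List Bool := hh^[n] [true]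

theorem it_succ (n : ℕ) : it (n + 1) = hh (it n) := Function.iterate_succ_apply' _ _ _

theorem it_pre (n : ℕ) : it n <+: it (n + 1) := by
  induction n with
  | zero => decide
  | succ n ih => rw [it_succ, it_succ (n + 1)]; exact hh_pre ih

theorem it_mono {m n : ℕ} (h : m ≤ n) : it m <+: it n := by
  induction h with
  | refl => exact prefix_rfl
  | step _ ih => exact ih.trans (it_pre _)

theorem it_len (n : ℕ) : n < (it n).length := by
  induction n with
  | zero => decide
  | succ n ih =>
    rw [it_succ, len_cnt, (cnt _).1, (cnt _).2]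
    rw [len_cnt] at ih
    omega

theorem it_good (n : ℕ) : Free5 (it n) ∧ ¬ [false, false] <:+: it n := by
  induction n with
  | zero =>
    refine ⟨fun y hy h => ?_, by decide⟩
    have := h.length_le
    have := length_pos_of_ne_nil hy
    simp [it] at *
    omega
  | succ n ih => rw [it_succ]; exact ⟨free5 _ ih.1, nobb _ ih.2⟩

def xx (i : ℕ) : Bool := (it i)[i]'(it_len i)

theorem xx_eq (n i : ℕ) (h : i < (it n).length) : xx i = (it n)[i] := by
  rcases le_total i n with k | k
  · exact (it_mono k).getElem _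
  · exact ((it_mono k).getElem h).symm

theorem fac {v : List Bool} (h : Factor v xx) : ∃ n, v <:+: it n := by
  obtain ⟨i, h⟩ := h
  refine ⟨i + v.length, ?_⟩
  have l := it_len (i + v.length)
  have : v = ((it (i + v.length)).drop i).take v.length := by
    refine List.ext_getElem (by simp; omega) fun j h1 h2 => ?_
    rw [getElem_take, getElem_drop, ← xx_eq]
    exact (List.getElem_of_eq h h1).trans (by simp)
  rw [this]
  exact (take_prefix _ _).isInfix.trans (by rw [← this]; exact (drop_suffix _ _).isInfix)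

theorem result : ∃ (A B : List Bool) (k : ℕ), 2 ≤ k ∧
    (∀ w, AbFree k w → AbFree k (mor A B w)) ∧
    (∃ u, u ≠ [] ∧ A = true :: u) ∧
    Tendsto (fun n => ((mor A B)^[n] [true]).length) atTop atTop ∧
    ∃ x : ℕ → Bool,
      (∀ n i, ∀ h : i < ((mor A B)^[n] [true]).length, x i = ((mor A B)^[n] [true])[i]) ∧
      (∀ y, y ≠ [] → ¬ Factor (y ++ y ++ y ++ y ++ y) x) ∧ ¬ Factor [false, false] x := by
  refine ⟨[true, true, true, false, true], [false, true, false], 6, by norm_num, abfree,
    ⟨_, by simp, rfl⟩, tendsto_atTop_mono (fun n => (it_len n).le) tendsto_id, xx, xx_eq,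
    fun y hy h => ?_, fun h => ?_⟩
  · obtain ⟨n, h⟩ := fac h
    exact (it_good n).1 y hy h
  · obtain ⟨n, h⟩ := fac h
    exact (it_good n).2 h

end Pool.Agent.Results.MP_8f8c07_co.Yes
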